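import Pool.Agent.Helper70.BI.HH.StHC

/-!
# Project BI, stage 7 (H), module WWL : laws of linear 2-cells (helper68)
-/

set_option autoImplicit false

open scoped Topology unitInterval
open Set

namespace Pool.Agent.Helper70.HH

section WWL

variable {E : Type} [NormedAddCommGroup E] [NormedSpace ℝ E]

private theorem lnm_apply_WWL (p q : C(I, E)) (s t : I) :
    lnm p q (s, t) = (1 - (s : ℝ)) • p t + (s : ℝ) • q t := rfl

private theorem comb_WWL (s : ℝ) (x : E) : (1 - s) • x + s • x = x := by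
  rw [← add_smul, sub_add_cancel, one_smul]

private theorem lnm_zero_WWL (p q : C(I, E)) (t : I) : lnm p q (0, t) = p t := by
  rw [lnm_apply_WWL]
  simp

private theorem lnm_one_WWL (p q : C(I, E)) (t : I) : lnm p q (1, t) = q t := by
  rw [lnm_apply_WWL]
  simp

private theorem lnm_eq_WWL (p q : C(I, E)) (s t : I) (h : p t = q t) : lnm p q (s, t) = p t := by
  rw [lnm_apply_WWL, ← h, comb_WWL]

private theorem cell_lnm_WWL {X : Type} [TopologicalSpace X] (Φ : C(E, X)) (p q : C(I, E))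
    (h : Same p q) : IsCell (Φ.comp (lnm p q)) := by
  intro s
  constructor
  · change Φ (lnm p q (s, 0)) = Φ (lnm p q (0, 0))
    rw [lnm_eq_WWL p q s 0 h.1, lnm_zero_WWL]
  · change Φ (lnm p q (s, 1)) = Φ (lnm p q (0, 1))
    rw [lnm_eq_WWL p q s 1 h.2, lnm_zero_WWL]

private theorem conv_WWL {X : Type} [TopologicalSpace X] {V : Type} [AddCommGroup V]
    {w : C(I × I, X) → V} {v : C(I, X) → V} (hU : IsU X V w v) (Φ : C(E, X)) (h h' : C(I × I, E))
    (hc : IsCell (Φ.comp h))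
    (hb : ∀ s t, (s = 0 ∨ s = 1 ∨ t = 0 ∨ t = 1) → h (s, t) = h' (s, t)) :
    w (Φ.comp h) = w (Φ.comp h') := by
  refine hU.hom (Φ.comp h) (Φ.comp h')
    ⟨fun z : I × (I × I) => Φ ((1 - (z.1 : ℝ)) • h z.2 + (z.1 : ℝ) • h' z.2), by fun_prop⟩ hc ?_ ?_ ?_
  · intro z
    change Φ ((1 - ((0 : I) : ℝ)) • h z + ((0 : I) : ℝ) • h' z) = Φ (h z)
    simp
  · intro z
    change Φ ((1 - ((1 : I) : ℝ)) • h z + ((1 : I) : ℝ) • h' z) = Φ (h' z)
    simp
  · intro r s t hst
    change Φ ((1 - (r : ℝ)) • h (s, t) + (r : ℝ) • h' (s, t)) =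
      Φ ((1 - ((0 : I) : ℝ)) • h (s, t) + ((0 : I) : ℝ) • h' (s, t))
    rw [← hb s t hst, comb_WWL, comb_WWL]

/-- the concatenation of two linear cells -/
private noncomputable def cat_WWL (p q r : C(I, E)) : C(I × I, E) :=
  ⟨fun z => p z.2 + (min 1 (2 * (z.1 : ℝ))) • (q z.2 - p z.2) +
    (max 0 (2 * (z.1 : ℝ) - 1)) • (r z.2 - q z.2), by fun_prop⟩

private theorem phiI_zero_WWL : phiI 0 = 0 := by
  apply Subtype.ext
  change phi ((0 : I) : ℝ) = 0
  unfold phi
  norm_num

private theorem phiI_one_WWL : phiI 1 = 1 := by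
  apply Subtype.ext
  change phi ((1 : I) : ℝ) = 1
  unfold phi
  norm_num

end WWL

theorem m_WWL : StWWL := by
  intro X _ V _ w v hU E _ _ Φ
  refine ⟨fun h h' hc hb => conv_WWL hU Φ h h' hc hb, ?_, ?_, ?_, ?_⟩
  · -- concatenation in the first variable
    intro p q r hpq hqr
    have hcell : IsCell (Φ.comp (cat_WWL p q r)) := by
      intro s
      constructor
      · change Φ (p 0 + (min 1 (2 * (s : ℝ))) • (q 0 - p 0) +
          (max 0 (2 * (s : ℝ) - 1)) • (r 0 - q 0)) =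
          Φ (p 0 + (min 1 (2 * ((0 : I) : ℝ))) • (q 0 - p 0) +
          (max 0 (2 * ((0 : I) : ℝ) - 1)) • (r 0 - q 0))
        rw [hpq.1, hqr.1]
        simp
      · change Φ (p 1 + (min 1 (2 * (s : ℝ))) • (q 1 - p 1) +
          (max 0 (2 * (s : ℝ) - 1)) • (r 1 - q 1)) =
          Φ (p 1 + (min 1 (2 * ((0 : I) : ℝ))) • (q 1 - p 1) +
          (max 0 (2 * ((0 : I) : ℝ) - 1)) • (r 1 - q 1))
        rw [hpq.2, hqr.2]
        simp
    have hlow : lowS (Φ.comp (cat_WWL p q r)) = Φ.comp (lnm p q) := by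
      ext ⟨s, t⟩
      change Φ (p t + (min 1 (2 * ((s : ℝ) / 2))) • (q t - p t) +
        (max 0 (2 * ((s : ℝ) / 2) - 1)) • (r t - q t)) = Φ ((1 - (s : ℝ)) • p t + (s : ℝ) • q t)
      have h0 := s.2.1
      have h1 := s.2.2
      rw [show 2 * ((s : ℝ) / 2) = s by ring, min_eq_right h1, max_eq_left (by linarith)]
      congr 1
      module
    have hup : upS (Φ.comp (cat_WWL p q r)) = Φ.comp (lnm q r) := by
      ext ⟨s, t⟩
      change Φ (p t + (min 1 (2 * ((1 + (s : ℝ)) / 2))) • (q t - p t) +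
        (max 0 (2 * ((1 + (s : ℝ)) / 2) - 1)) • (r t - q t)) =
        Φ ((1 - (s : ℝ)) • q t + (s : ℝ) • r t)
      have h0 := s.2.1
      have h1 := s.2.2
      rw [show 2 * ((1 + (s : ℝ)) / 2) = 1 + s by ring, min_eq_left (by linarith),
        max_eq_right (by linarith)]
      congr 1
      module
    have hconv : w (Φ.comp (cat_WWL p q r)) = w (Φ.comp (lnm p r)) := by
      apply conv_WWL hU Φ _ _ hcell
      intro s t hst
      change p t + (min 1 (2 * (s : ℝ))) • (q t - p t) +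
        (max 0 (2 * (s : ℝ) - 1)) • (r t - q t) = lnm p r (s, t)
      rcases hst with rfl | rfl | rfl | rfl
      · rw [lnm_zero_WWL]
        simp
      · rw [lnm_one_WWL]
        norm_num
      · rw [lnm_eq_WWL p r s 0 (hpq.1.trans hqr.1), hpq.1, hqr.1]
        simp
      · rw [lnm_eq_WWL p r s 1 (hpq.2.trans hqr.2), hpq.2, hqr.2]
        simp
    rw [← hconv, hU.vert _ hcell, hlow, hup]
  · -- horizontal decomposition
    intro p q hpq hmid
    have hcell := cell_lnm_WWL Φ p q hpq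
    have h1 := hU.hor (Φ.comp (lnm p q)) hcell (by
      intro s
      change Φ (lnm p q (s, mid)) = Φ (lnm p q (0, mid))
      rw [lnm_eq_WWL p q s mid hmid, lnm_zero_WWL])
    have e1 : lowT (Φ.comp (lnm p q)) = Φ.comp (lnm (p.comp hl) (q.comp hl)) := rfl
    have e2 : upT (Φ.comp (lnm p q)) = Φ.comp (lnm (p.comp hr) (q.comp hr)) := rfl
    have e3 : row (Φ.comp (lnm p q)) 1 = Φ.comp q := by
      ext t
      change Φ (lnm p q (1, t)) = Φ (q t)
      rw [lnm_one_WWL]
    have e4 : row (Φ.comp (lnm p q)) 0 = Φ.comp p := by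
      ext t
      change Φ (lnm p q (0, t)) = Φ (p t)
      rw [lnm_zero_WWL]
    rw [e1, e2, e3, e4] at h1
    exact h1
  · -- the associator
    intro R
    have hsame : Same R (R.comp phiI) := by
      constructor
      · change R 0 = R (phiI 0)
        rw [phiI_zero_WWL]
      · change R 1 = R (phiI 1)
        rw [phiI_one_WWL]
    have hcell := cell_lnm_WWL Φ R (R.comp phiI) hsame
    have h1 : w (Φ.comp (lnm R (R.comp phiI))) = w (Φ.comp (ascU R)) := by
      apply conv_WWL hU Φ _ _ hcell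
      intro s t hst
      have hasc : ∀ (a : I), (1 - (s : ℝ)) * t + (s : ℝ) * (phiI t : ℝ) = a →
          ascU R (s, t) = R a := by
        intro a ha
        change R ⟨(1 - (s : ℝ)) * t + (s : ℝ) * (phiI t : ℝ), _⟩ = R a
        congr 1
        exact Subtype.ext ha
      rcases hst with rfl | rfl | rfl | rfl
      · rw [lnm_zero_WWL, hasc t (by simp)]
      · rw [lnm_one_WWL, hasc (phiI t) (by simp)]
        rfl
      · rw [lnm_eq_WWL _ _ s 0 hsame.1, hasc 0 (by rw [phiI_zero_WWL]; simp)]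
      · rw [lnm_eq_WWL _ _ s 1 hsame.2, hasc 1 (by rw [phiI_one_WWL]; simp)]
    have h2 : ascU (Φ.comp R) = Φ.comp (ascU R) := rfl
    have h3 := hU.assoc (Φ.comp R)
    rw [h2] at h3
    rw [h1, h3]
    rfl
  · -- constant cells
    intro p
    have hcell := cell_lnm_WWL Φ p p ⟨rfl, rfl⟩
    have h1 := hU.vert (Φ.comp (lnm p p)) hcell
    have hval : ∀ s t : I, lnm p p (s, t) = p t := fun s t => lnm_eq_WWL p p s t rfl
    have e1 : lowS (Φ.comp (lnm p p)) = Φ.comp (lnm p p) := by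
      ext ⟨s, t⟩
      change Φ (lnm p p (hl s, t)) = Φ (lnm p p (s, t))
      rw [hval, hval]
    have e2 : upS (Φ.comp (lnm p p)) = Φ.comp (lnm p p) := by
      ext ⟨s, t⟩
      change Φ (lnm p p (hr s, t)) = Φ (lnm p p (s, t))
      rw [hval, hval]
    rw [e1, e2] at h1
    exact left_eq_add.mp h1

end Pool.Agent.Helper70.HH
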